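import Mathlib

/-!
The order of `1 + x + x ^ 2 ^ r + x ^ (2 ^ r + 2)` over the field with two elements.
-/

namespace Pool.Agent.Results.MP_9cbaed_nt.Order

open Polynomial

/-- `e` is the order of `f`: the least positive integer such that `f` divides `1 + x ^ e`. -/
def IsOrd (f : (ZMod 2)[X]) (e : ℕ) : Prop := IsLeast {n : ℕ | 0 < n ∧ f ∣ 1 + X ^ n} e

lemma low (r e : ℕ) (e0 : 0 < e)
    (h : ∀ a : AlgebraicClosure (ZMod 2), a ^ (2 ^ r + 1) + a + 1 = 0 → a ^ e = 1) (r0 : r ≠ 0) :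
    4 ^ r + 2 ^ r + 1 ≤ e := by
  classical
  set K := AlgebraicClosure (ZMod 2)
  let p : K[X] := X ^ (2 ^ r + 1) + X + 1
  have two : (2 : K) = 0 := CharTwo.two_eq_zero
  have d : p.natDegree = 2 ^ r + 1 := by
    have : 0 < 2 ^ r := by positivity
    simp only [p]
    compute_degree!
  have p0 : p ≠ 0 := fun k => by simp [k] at d
  have s : p.Separable := by
    refine (Polynomial.isCoprime_iff_aeval_ne_zero_of_isAlgClosed K K _ _).2 fun a => ?_
    by_contra! k
    obtain ⟨k1, k2⟩ := k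
    simp [p, two, r0] at k1 k2
    have : a = 1 := by
      have := add_pow_char_pow a 1 2 r
      rw [one_pow, k2, pow_eq_zero_iff (by positivity)] at this
      linear_combination this - two
    rw [this] at k1
    exact one_ne_zero (α := K) (by linear_combination k1 - two)
  have c : p.roots.toFinset.card = 2 ^ r + 1 := by
    rw [Multiset.toFinset_card_of_nodup (nodup_roots s), ← d,
      (IsAlgClosed.splits p).natDegree_eq_card_roots]
  have m (a) (k : a ∈ p.roots.toFinset) : a ^ (2 ^ r + 1) + a + 1 = 0 := by simpa [p0, p] using k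
  have z (a) (k : a ∈ p.roots.toFinset) : a ≠ 0 := fun o => by simpa [o] using m a k
  have := Finset.card_le_card_of_injOn (s := p.roots.toFinset.offDiag)
    (t := (nthRootsFinset e (1 : K)).erase 1) (fun q => q.1 / q.2) (fun q k => by
      obtain ⟨a, b, n⟩ := Finset.mem_offDiag.1 k
      simp [mem_nthRootsFinset e0, div_pow, h _ (m _ a), h _ (m _ b), div_eq_one_iff_eq (z _ b), n])
    fun q k q' k' (o : q.1 / q.2 = q'.1 / q'.2) => by
      obtain ⟨a, b, n⟩ := Finset.mem_offDiag.1 k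
      obtain ⟨a', b', -⟩ := Finset.mem_offDiag.1 k'
      have u : q.1 = q'.1 / q'.2 * q.2 := by rw [← o, div_mul_cancel₀ _ (z _ b)]
      have u' : q'.1 = q'.1 / q'.2 * q'.2 := by rw [div_mul_cancel₀ _ (z _ b')]
      generalize q'.1 / q'.2 = t at u u'
      have v := m _ a
      have v' := m _ a'
      rw [u, mul_pow] at v
      rw [u', mul_pow] at v'
      have w := m _ b
      have w' := m _ b'
      suffices q.2 = q'.2 from Prod.ext (by rw [u, u', this]) this
      by_contra g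
      have t1 : t ^ (2 ^ r + 1) = t := mul_right_cancel₀ (sub_ne_zero.2 g) (by
        linear_combination t ^ (2 ^ r + 1) * (w - w') - v + v')
      rw [t1] at v
      exact n (by rw [u, show t = 1 by linear_combination t * w - v, one_mul])
  rw [Finset.offDiag_card, c, Finset.card_erase_of_mem (by simp [mem_nthRootsFinset e0])] at this
  have l : (nthRootsFinset e (1 : K)).card ≤ e :=
    (Multiset.toFinset_card_le _).trans (card_nthRoots e 1)
  rw [show 4 ^ r = 2 ^ r * 2 ^ r by rw [← mul_pow]; rfl]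
  have : (2 ^ r + 1) * (2 ^ r + 1) = 2 ^ r * 2 ^ r + 2 ^ r + (2 ^ r + 1) := by ring
  omega

theorem result (r : ℕ) (hr : 1 ≤ r) :
    IsOrd (1 + X + X ^ 2 ^ r + X ^ (2 ^ r + 2)) (4 ^ r + 2 ^ r + 1) ∧
      IsOrd (1 + X ^ 2 + X ^ (2 ^ r + 1) + X ^ (2 ^ r + 2)) (4 ^ r + 2 ^ r + 1) := by
  have two : (2 : (ZMod 2)[X]) = 0 := CharTwo.two_eq_zero
  have t : (2 : AlgebraicClosure (ZMod 2)) = 0 := CharTwo.two_eq_zero
  have n : 4 ^ r = 2 ^ r * 2 ^ r := by rw [← mul_pow]; rfl
  have o (k : ℕ) : (1 + X : (ZMod 2)[X]) ∣ 1 + X ^ k := by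
    simpa only [CharTwo.sub_eq_add, one_pow] using sub_dvd_pow_sub_pow (1 : (ZMod 2)[X]) X k
  have co {g : (ZMod 2)[X]} (i j : ℕ) (e : g = 1 + X ^ i + X ^ j) : IsCoprime (1 + X) g := by
    obtain ⟨a, u⟩ := o i
    obtain ⟨b, v⟩ := o j
    exact ⟨a + b, 1, by rw [e]; linear_combination -u - v + (1 + X ^ i + X ^ j) * two⟩
  have ev {f : (ZMod 2)[X]} {e : ℕ} (h : f ∣ 1 + X ^ e) {a : AlgebraicClosure (ZMod 2)}
      (k : aeval a f = 0) : a ^ e = 1 := by
    have := aeval_eq_zero_of_dvd_aeval_eq_zero h k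
    simp only [map_add, map_one, map_pow, aeval_X] at this
    linear_combination this - t
  refine ⟨⟨⟨by positivity, ?_⟩, fun e h => low r e h.1 (fun a k => ?_) (by omega)⟩,
    ⟨by positivity, ?_⟩, fun e h => low r e h.1 (fun a k => ev h.2 ?_) (by omega)⟩
  · rw [show (1 + X + X ^ 2 ^ r + X ^ (2 ^ r + 2) : (ZMod 2)[X]) =
      (1 + X) * (1 + X ^ 2 ^ r + X ^ (2 ^ r + 1)) by linear_combination -X ^ (2 ^ r + 1) * two]
    refine (co _ _ rfl).mul_dvd (o _) ?_
    obtain ⟨c, u⟩ := dvd_pow_self (1 + X ^ 2 ^ r + X ^ (2 ^ r + 1) : (ZMod 2)[X])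
      (n := 2 ^ r) (by positivity)
    simp only [add_pow_char_pow, one_pow, ← pow_mul] at u
    exact ⟨c + X ^ (2 ^ r * 2 ^ r), by
      rw [n]; linear_combination u - (X ^ (2 ^ r * 2 ^ r) + X ^ (2 ^ r * 2 ^ r + 2 ^ r)) * two⟩
  · have z : a ≠ 0 := fun o => by simp [o] at k
    refine inv_eq_one.1 ((inv_pow a e).symm.trans (ev h.2 ?_))
    simp only [map_add, map_one, map_pow, map_mul, aeval_X, pow_add, inv_pow] at k ⊢
    field_simp
    linear_combination (a + 1) * k - a * t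
  · rw [show (1 + X ^ 2 + X ^ (2 ^ r + 1) + X ^ (2 ^ r + 2) : (ZMod 2)[X]) =
      (1 + X) * (1 + X ^ 1 + X ^ (2 ^ r + 1)) by linear_combination -X * two]
    refine (co _ _ rfl).mul_dvd (o _) ?_
    obtain ⟨c, u⟩ := dvd_pow_self (1 + X ^ 1 + X ^ (2 ^ r + 1) : (ZMod 2)[X])
      (n := 2 ^ r) (by positivity)
    simp only [add_pow_char_pow, one_pow, ← pow_mul] at u
    exact ⟨X * c + 1, by rw [n]; linear_combination X * u - (X + X ^ (2 ^ r + 1)) * two⟩
  · simp only [map_add, map_one, map_pow, aeval_X]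
    linear_combination (a + 1) * k - a * t

end Pool.Agent.Results.MP_9cbaed_nt.Order
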